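import Pool.Agent.Lib.MP_fb3619_al.H74.Fic

/-!
# MP_fb3619_al, THEOREM FI (findings 4508, 4518 of helper4), part 4: THEOREM FI

`K` tame: every `V`-invariant subgroup of `K` with finite indices in the three centralizers has
finite index in `K`.
-/

set_option autoImplicit false

universe u v

namespace Pool.Agent.FourGp.FF.Fi

open Pool.Agent.FourGp.H47 (Odd' inv_of_sq conj_inv_pow mul_inv_self odd_conj comm_of_inv
  mul_inv_self' comm_pow comm_inv conj_comm comm_conj)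

variable {G : Type u} [Group G] {K : Subgroup G} {a b c : G}

/-! ### Tame types, the family of subgroups -/

/-- The type of `v` is tame. -/
def Tm (K : Subgroup G) (a b c v : G) : Prop :=
  ∃ T : Subgroup G, T.relIndex (Cz K v) ≠ 0 ∧ ∀ t ∈ T, TT K a b c v t

theorem Tm.rot {v : G} (h : Tm K a b c v) : Tm K b c a v := by
  obtain ⟨T, h1, h2⟩ := h
  exact ⟨T, h1, fun t ht => TT_rot (h2 t ht)⟩

theorem Tm.swap {v : G} (h : Tm K a b c v) : Tm K b a c v := by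
  obtain ⟨T, h1, h2⟩ := h
  exact ⟨T, h1, fun t ht => TT_swap (h2 t ht)⟩

/-- All types are tame. -/
structure AT (K : Subgroup G) (a b c : G) : Prop where
  ta : Tm K a b c a
  tb : Tm K a b c b
  tc : Tm K a b c c

theorem AT.rot (h : AT K a b c) : AT K b c a := ⟨h.tb.rot, h.tc.rot, h.ta.rot⟩

theorem AT.swap (h : AT K a b c) : AT K b a c := ⟨h.tb.swap, h.ta.swap, h.tc.swap⟩

theorem AT.swap' (h : AT K a b c) : AT K a c b := h.swap.rot

/-- The `V`-invariant subgroups with finite indices in the three centralizers. -/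
structure Fam (K : Subgroup G) (a b c : G) (U : Subgroup G) : Prop where
  le : U ≤ K
  inv : VInv a b U
  ia : U.relIndex (Cz K a) ≠ 0
  ib : U.relIndex (Cz K b) ≠ 0
  ic : U.relIndex (Cz K c) ≠ 0

theorem inv_third (h : Fr K a b c) {U : Subgroup G} (hU : VInv a b U) :
    ∀ u ∈ U, c * u * c ∈ U := by
  intro u hu
  have e : c * u * c = a * (b * u * b) * a := by
    calc c * u * c = (a * b) * u * (b * a) := by rw [h.ab, h.ba]
      _ = _ := by group
  rw [e]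
  exact hU.1 _ (hU.2 u hu)

theorem Fam.rot (h : Fr K a b c) {U : Subgroup G} (F : Fam K a b c U) : Fam K b c a U :=
  ⟨F.le, ⟨F.inv.2, inv_third h F.inv⟩, F.ib, F.ic, F.ia⟩

theorem Fam.swap {U : Subgroup G} (F : Fam K a b c U) : Fam K b a c U :=
  ⟨F.le, ⟨F.inv.2, F.inv.1⟩, F.ib, F.ia, F.ic⟩

theorem Fam.swap' (h : Fr K a b c) {U : Subgroup G} (F : Fam K a b c U) : Fam K a c b U :=
  F.swap.rot h.swap

/-! ### Conjugates -/

/-- The conjugate `k U k⁻¹`. -/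
def cjg (k : G) (U : Subgroup G) : Subgroup G := U.comap (MulAut.conj k⁻¹).toMonoidHom

theorem mem_cjg {k g : G} {U : Subgroup G} : g ∈ cjg k U ↔ k⁻¹ * g * k ∈ U := by
  unfold cjg
  rw [Subgroup.mem_comap]
  simp [MulAut.conj_apply]

theorem cjg_mono {k : G} {U U' : Subgroup G} (h : U ≤ U') : cjg k U ≤ cjg k U' :=
  Subgroup.comap_mono h

theorem cjg_mul (k l : G) (U : Subgroup G) : cjg k (cjg l U) = cjg (k * l) U := by
  ext g
  rw [mem_cjg, mem_cjg, mem_cjg]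
  have e : l⁻¹ * (k⁻¹ * g * k) * l = (k * l)⁻¹ * g * (k * l) := by group
  rw [e]

theorem cjg_one (U : Subgroup G) : cjg 1 U = U := by
  ext g
  rw [mem_cjg]
  simp

theorem rel_cjg {U L : Subgroup G} (h : U.relIndex L ≠ 0) (k : G) :
    (cjg k U).relIndex (cjg k L) ≠ 0 := by
  obtain ⟨R, hR, hR1⟩ := Fct.reps h
  refine Fct.idx (R := (fun r => k * r * k⁻¹) '' R) (hR.image _) ?_
  intro g hg
  rw [mem_cjg] at hg
  obtain ⟨r, hr, n, hn, e⟩ := hR1 _ hg
  refine ⟨_, ⟨r, hr, rfl⟩, k * n * k⁻¹, ?_, ?_⟩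
  · rw [mem_cjg]
    have e1 : k⁻¹ * (k * n * k⁻¹) * k = n := by group
    rw [e1]; exact hn
  · show g = k * n * k⁻¹ * (k * r * k⁻¹)
    calc g = k * (k⁻¹ * g * k) * k⁻¹ := by group
      _ = k * (n * r) * k⁻¹ := by rw [e]
      _ = _ := by group

theorem cjg_Cz (h : Fr K a b c) {k v : G} (hk : k ∈ Cz K v) : cjg k (Cz K v) = Cz K v := by
  have hkv := (mem_Cz.1 hk).2
  have hkK := (mem_Cz.1 hk).1
  have c1 : Commute k v := hkv
  ext g
  rw [mem_cjg]
  constructor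
  · intro hg
    have e : g = k * (k⁻¹ * g * k) * k⁻¹ := by group
    rw [e]
    exact (Cz K v).mul_mem ((Cz K v).mul_mem hk hg) ((Cz K v).inv_mem hk)
  · intro hg
    exact (Cz K v).mul_mem ((Cz K v).mul_mem ((Cz K v).inv_mem hk) hg) hk

/-! ### The space of cosets of `U V` -/

/-- The set `U V`. -/
def SV (U : Subgroup G) (a b c : G) : Set G := {g | g ∈ U ∨ g * a ∈ U ∨ g * b ∈ U ∨ g * c ∈ U}

theorem SV_a (h : Fr K a b c) {U : Subgroup G} (hU : VInv a b U) {x : G}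
    (hx : x ∈ SV U a b c) : a * x ∈ SV U a b c := by
  rcases hx with hx | hx | hx | hx
  · right; left; exact hU.1 _ hx
  · left
    have := hU.1 _ hx
    have e : a * (x * a) * a = a * x := by
      calc a * (x * a) * a = a * x * (a * a) := by group
        _ = a * x := by rw [h.aa, mul_one]
    rwa [e] at this
  · right; right; right
    have := hU.1 _ hx
    have e : a * (x * b) * a = a * x * c := by
      calc a * (x * b) * a = a * x * (b * a) := by group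
        _ = a * x * c := by rw [h.ba]
    rwa [e] at this
  · right; right; left
    have := hU.1 _ hx
    have e : a * (x * c) * a = a * x * b := by
      calc a * (x * c) * a = a * x * (c * a) := by group
        _ = a * x * b := by rw [h.ca]
    rwa [e] at this

theorem SV_swap (U : Subgroup G) (a b c : G) : SV U a b c = SV U b a c := by
  ext g
  constructor
  · rintro (h | h | h | h)
    · exact Or.inl h
    · exact Or.inr (Or.inr (Or.inl h))
    · exact Or.inr (Or.inl h)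
    · exact Or.inr (Or.inr (Or.inr h))
  · rintro (h | h | h | h)
    · exact Or.inl h
    · exact Or.inr (Or.inr (Or.inl h))
    · exact Or.inr (Or.inl h)
    · exact Or.inr (Or.inr (Or.inr h))

theorem SV_b (h : Fr K a b c) {U : Subgroup G} (hU : VInv a b U) {x : G}
    (hx : x ∈ SV U a b c) : b * x ∈ SV U a b c := by
  rw [SV_swap] at hx ⊢
  exact SV_a h.swap ⟨hU.2, hU.1⟩ hx

theorem SV_U {U : Subgroup G} {u x : G} (hu : u ∈ U) (hx : x ∈ SV U a b c) :
    u * x ∈ SV U a b c := by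
  rcases hx with hx | hx | hx | hx
  · exact Or.inl (U.mul_mem hu hx)
  · refine Or.inr (Or.inl ?_)
    rw [mul_assoc]; exact U.mul_mem hu hx
  · refine Or.inr (Or.inr (Or.inl ?_))
    rw [mul_assoc]; exact U.mul_mem hu hx
  · refine Or.inr (Or.inr (Or.inr ?_))
    rw [mul_assoc]; exact U.mul_mem hu hx

open Pointwise in
theorem smul_SV_of {S : Set G} {g : G} (h1 : ∀ x ∈ S, g * x ∈ S) (h2 : ∀ x ∈ S, g⁻¹ * x ∈ S) :
    g • S = S := by
  ext x
  rw [Set.mem_smul_set_iff_inv_smul_mem, smul_eq_mul]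
  constructor
  · intro hx
    have := h1 _ hx
    rwa [mul_inv_cancel_left] at this
  · intro hx
    exact h2 _ hx

open Pointwise in
theorem obj_SV (h : Fr K a b c) {U : Subgroup G} (F : Fam K a b c U) (hF : Fx K a b ≤ U) :
    Obj K a b c (SV U a b c) := by
  have ea : a⁻¹ = a := inv_of_sq h.aa
  have eb : b⁻¹ = b := inv_of_sq h.bb
  have fa : a • SV U a b c = SV U a b c :=
    smul_SV_of (fun x hx => SV_a h F.inv hx) (fun x hx => by rw [ea]; exact SV_a h F.inv hx)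
  have fb : b • SV U a b c = SV U a b c :=
    smul_SV_of (fun x hx => SV_b h F.inv hx) (fun x hx => by rw [eb]; exact SV_b h F.inv hx)
  have fU : ∀ u ∈ U, u • SV U a b c = SV U a b c := fun u hu =>
    smul_SV_of (fun x hx => SV_U hu hx) (fun x hx => SV_U (U.inv_mem hu) hx)
  have fin : ∀ v, U.relIndex (Cz K v) ≠ 0 →
      {p : Set G | ∃ d ∈ Cz K v, p = d • SV U a b c}.Finite := by
    intro v hv
    obtain ⟨R, hR, hR1⟩ := Fct.reps hv
    refine (hR.image (fun r => r⁻¹ • SV U a b c)).subset ?_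
    rintro p ⟨d, hd, rfl⟩
    obtain ⟨r, hr, n, hn, e⟩ := hR1 _ ((Cz K v).inv_mem hd)
    refine ⟨r, hr, ?_⟩
    have e1 : d = r⁻¹ * n⁻¹ := by rw [← mul_inv_rev, ← e, inv_inv]
    show r⁻¹ • SV U a b c = d • SV U a b c
    rw [e1, mul_smul, fU _ (U.inv_mem hn)]
  refine ⟨fa, fb, ?_, ?_, fin a F.ia, fin b F.ib, fin c F.ic⟩
  · calc c • SV U a b c = (a * b) • SV U a b c := by rw [h.ab]
      _ = SV U a b c := by rw [mul_smul, fb, fa]
  · intro f hf h1 h2 _
    exact fU f (hF (mem_Fx.2 ⟨hf, h1, h2⟩))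

open Pointwise in
theorem stepA (h : Fr K a b c) (t : AT K a b c) {U : Subgroup G} (F : Fam K a b c U)
    (hF : Fx K a b ≤ U) {k : G} (hk : k ∈ Cz K a) : (cjg k U).relIndex (Cz K c) ≠ 0 := by
  obtain ⟨Ta, hTa, hTaT⟩ := t.ta
  obtain ⟨Tc, hTc, hTcT⟩ := t.tc
  have O := obj_SV h F hF
  have hkK := (mem_Cz.1 hk).1
  have hp : Ko K (SV U a b c) (k • SV U a b c) :=
    ⟨k⁻¹, K.inv_mem hkK, by rw [inv_inv]⟩
  have hap : a • k • SV U a b c = k • SV U a b c := by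
    rw [← mul_smul, ← (mem_Cz.1 hk).2, mul_smul, O.fa]
  have h1 := stab_rel (thmX h O hTa hTaT hTc hTcT _ hp hap)
  refine Fct.rel_le h1 ?_
  intro g hg hgs
  have hgK := (mem_Cz.1 hg).1
  have e1 : g • k • SV U a b c = k • SV U a b c := MulAction.mem_stabilizer_iff.1 hgs
  have e2 : (k⁻¹ * g * k) • SV U a b c = SV U a b c := by
    rw [mul_smul, mul_smul, e1, inv_smul_smul]
  have e3 : (1 : G) ∈ SV U a b c := Or.inl U.one_mem
  have e4 : (k⁻¹ * g * k) * 1 ∈ SV U a b c := by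
    rw [← e2]
    exact Set.smul_mem_smul_set e3
  rw [mul_one] at e4
  have e5 : k⁻¹ * g * k ∈ K := K.mul_mem (K.mul_mem (K.inv_mem hkK) hgK) hkK
  have no : ∀ v, v ∉ K → ¬ (k⁻¹ * g * k * v ∈ U) := by
    intro v hv hm
    apply hv
    have := K.mul_mem (K.inv_mem e5) (F.le hm)
    rwa [inv_mul_cancel_left] at this
  rw [mem_cjg]
  rcases e4 with e4 | e4 | e4 | e4
  · exact e4
  · exact absurd e4 (no a h.na)
  · exact absurd e4 (no b h.nb)
  · exact absurd e4 (no c h.nc)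

/-! ### Subgroups which do not contain `C_K(V)` -/

theorem stepB (h : Fr K a b c) (t : AT K a b c) (hFf : (Fx K a b : Set G).Finite)
    {U : Subgroup G} (F : Fam K a b c U) {k : G} (hk : k ∈ Cz K a) :
    (cjg k U).relIndex (Cz K c) ≠ 0 := by
  obtain ⟨U1, hU1⟩ : ∃ U1 : Subgroup G, U1 = ⨅ f : Fx K a b, cjg (f : G) U := ⟨_, rfl⟩
  have mem1 : ∀ g, g ∈ U1 ↔ ∀ f ∈ Fx K a b, f⁻¹ * g * f ∈ U := by
    intro g
    rw [hU1, Subgroup.mem_iInf]
    constructor
    · intro hg f hf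
      exact mem_cjg.1 (hg ⟨f, hf⟩)
    · intro hg f
      exact mem_cjg.2 (hg _ f.2)
  have hU1U : U1 ≤ U := by
    intro g hg
    have := (mem1 g).1 hg 1 (Fx K a b).one_mem
    simpa using this
  have hFfin : Finite (Fx K a b) := hFf.to_subtype
  have fcom : ∀ f ∈ Fx K a b, f * a = a * f ∧ f * b = b * f ∧ f * c = c * f := by
    intro f hf
    obtain ⟨-, h1, h2⟩ := mem_Fx.1 hf
    refine ⟨h1, h2, ?_⟩
    have c1 : Commute f a := h1
    have c2 : Commute f b := h2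
    rw [← h.ab]
    exact c1.mul_right c2
  have rel1 : ∀ v, U.relIndex (Cz K v) ≠ 0 → (∀ f ∈ Fx K a b, f * v = v * f) →
      U1.relIndex (Cz K v) ≠ 0 := by
    intro v hv hfv
    rw [hU1]
    refine Subgroup.relIndex_iInf_ne_zero fun f => ?_
    have hfC : (f : G) ∈ Cz K v := mem_Cz.2 ⟨(mem_Fx.1 f.2).1, hfv _ f.2⟩
    have := rel_cjg hv (f : G)
    rwa [cjg_Cz h hfC] at this
  have inv1 : ∀ v, (∀ u ∈ U, v * u * v ∈ U) → (∀ f ∈ Fx K a b, f * v = v * f) →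
      ∀ u ∈ U1, v * u * v ∈ U1 := by
    intro v hv hfv u hu
    rw [mem1] at hu ⊢
    intro f hf
    have c1 : Commute f v := hfv f hf
    have e : f⁻¹ * (v * u * v) * f = v * (f⁻¹ * u * f) * v := by
      calc f⁻¹ * (v * u * v) * f = (f⁻¹ * v) * u * (v * f) := by group
        _ = (v * f⁻¹) * u * (f * v) := by rw [c1.inv_left.eq, c1.eq]
        _ = _ := by group
    rw [e]
    exact hv _ (hu f hf)
  have conj1 : ∀ f ∈ Fx K a b, ∀ u ∈ U1, f * u * f⁻¹ ∈ U1 := by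
    intro f hf u hu
    rw [mem1] at hu ⊢
    intro g hg
    have := hu (f⁻¹ * g) ((Fx K a b).mul_mem ((Fx K a b).inv_mem hf) hg)
    have e : (f⁻¹ * g)⁻¹ * u * (f⁻¹ * g) = g⁻¹ * (f * u * f⁻¹) * g := by group
    rwa [e] at this
  -- the product `U1 F`
  obtain ⟨U2, hU2⟩ : ∃ U2 : Subgroup G, ∀ g, g ∈ U2 ↔ ∃ u ∈ U1, ∃ f ∈ Fx K a b, g = u * f := by
    refine ⟨{ carrier := {g | ∃ u ∈ U1, ∃ f ∈ Fx K a b, g = u * f}
              mul_mem' := ?_
              one_mem' := ⟨1, U1.one_mem, 1, (Fx K a b).one_mem, by simp⟩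
              inv_mem' := ?_ }, fun g => Iff.rfl⟩
    · rintro _ _ ⟨u, hu, f, hf, rfl⟩ ⟨u', hu', f', hf', rfl⟩
      refine ⟨u * (f * u' * f⁻¹), U1.mul_mem hu (conj1 f hf u' hu'), f * f',
        (Fx K a b).mul_mem hf hf', by group⟩
    · rintro _ ⟨u, hu, f, hf, rfl⟩
      refine ⟨f⁻¹ * u⁻¹ * f, ?_, f⁻¹, (Fx K a b).inv_mem hf, by group⟩
      have := conj1 f⁻¹ ((Fx K a b).inv_mem hf) _ (U1.inv_mem hu)
      rwa [inv_inv] at this
  have h12 : U1 ≤ U2 := by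
    intro u hu
    exact (hU2 u).2 ⟨u, hu, 1, (Fx K a b).one_mem, by simp⟩
  have hF2 : Fx K a b ≤ U2 := by
    intro f hf
    exact (hU2 f).2 ⟨1, U1.one_mem, f, hf, by simp⟩
  have rel2 : ∀ v, U.relIndex (Cz K v) ≠ 0 → (∀ f ∈ Fx K a b, f * v = v * f) →
      U2.relIndex (Cz K v) ≠ 0 := by
    intro v hv hfv h0
    exact rel1 v hv hfv (Subgroup.relIndex_eq_zero_of_le_left h12 h0)
  have inv2 : ∀ v, v * v = 1 → (∀ u ∈ U, v * u * v ∈ U) → (∀ f ∈ Fx K a b, f * v = v * f) →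
      ∀ u ∈ U2, v * u * v ∈ U2 := by
    intro v hvv hv hfv g hg
    obtain ⟨u, hu, f, hf, rfl⟩ := (hU2 g).1 hg
    refine (hU2 _).2 ⟨v * u * v, inv1 v hv hfv u hu, f, hf, ?_⟩
    calc v * (u * f) * v = v * u * (f * v) := by group
      _ = v * u * (v * f) := by rw [hfv f hf]
      _ = _ := by group
  have F2 : Fam K a b c U2 := by
    refine ⟨?_, ⟨inv2 a h.aa F.inv.1 (fun f hf => (fcom f hf).1),
      inv2 b h.bb F.inv.2 (fun f hf => (fcom f hf).2.1)⟩, rel2 a F.ia (fun f hf => (fcom f hf).1),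
      rel2 b F.ib (fun f hf => (fcom f hf).2.1), rel2 c F.ic (fun f hf => (fcom f hf).2.2)⟩
    intro g hg
    obtain ⟨u, hu, f, hf, rfl⟩ := (hU2 g).1 hg
    exact K.mul_mem (F.le (hU1U hu)) (mem_Fx.1 hf).1
  have r12 : U1.relIndex U2 ≠ 0 := by
    refine Fct.idx (R := (Fx K a b : Set G)) hFf ?_
    intro g hg
    obtain ⟨u, hu, f, hf, e⟩ := (hU2 g).1 hg
    exact ⟨f, hf, u, hu, e⟩
  have r1 := stepA h t F2 hF2 hk
  have r2 := rel_cjg r12 k
  have r3 : (cjg k U1).relIndex (Cz K c) ≠ 0 := Subgroup.relIndex_ne_zero_trans r2 r1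
  intro h0
  exact r3 (Subgroup.relIndex_eq_zero_of_le_left (cjg_mono hU1U) h0)

/-- Below a conjugate of a member of the family by an element of `C_K(a)` there is a member of
the family. -/
theorem stepC (h : Fr K a b c) (t : AT K a b c) (hFf : (Fx K a b : Set G).Finite)
    {U : Subgroup G} (F : Fam K a b c U) {k : G} (hk : k ∈ Cz K a) :
    ∃ U', Fam K a b c U' ∧ U' ≤ cjg k U := by
  have hkK := (mem_Cz.1 hk).1
  have hka := (mem_Cz.1 hk).2
  have hkb : b * k * b ∈ Cz K a := by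
    refine mem_Cz.2 ⟨h.cjmem h.bb hkK, ?_⟩
    have c1 : Commute b a := h.cab.symm
    have c2 : Commute k a := hka
    exact ((c1.mul_left c2).mul_left c1).eq
  have hFf' : (Fx K a c : Set G).Finite := by rw [Fct.fx_ac h]; exact hFf
  have r1 : ∀ l ∈ Cz K a, (cjg l U).relIndex (Cz K a) ≠ 0 := by
    intro l hl
    have := rel_cjg F.ia l
    rwa [cjg_Cz h hl] at this
  have r2 : ∀ l ∈ Cz K a, (cjg l U).relIndex (Cz K b) ≠ 0 := fun l hl =>
    stepB h.swap' t.swap' hFf' (F.swap' h) hl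
  have r3 : ∀ l ∈ Cz K a, (cjg l U).relIndex (Cz K c) ≠ 0 := fun l hl =>
    stepB h t hFf F hl
  have ia : ∀ l ∈ Cz K a, ∀ u ∈ cjg l U, a * u * a ∈ cjg l U := by
    intro l hl u hu
    rw [mem_cjg] at hu ⊢
    have c1 : Commute l a := (mem_Cz.1 hl).2
    have e : l⁻¹ * (a * u * a) * l = a * (l⁻¹ * u * l) * a := by
      calc l⁻¹ * (a * u * a) * l = (l⁻¹ * a) * u * (a * l) := by group
        _ = (a * l⁻¹) * u * (l * a) := by rw [c1.inv_left.eq, c1.eq]
        _ = _ := by group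
    rw [e]
    exact F.inv.1 _ hu
  have eb : b⁻¹ = b := inv_of_sq h.bb
  have ib : ∀ l, ∀ u ∈ cjg l U, b * u * b ∈ cjg (b * l * b) U := by
    intro l u hu
    rw [mem_cjg] at hu ⊢
    have e : (b * l * b)⁻¹ * (b * u * b) * (b * l * b) = b * (l⁻¹ * u * l) * b := by
      calc (b * l * b)⁻¹ * (b * u * b) * (b * l * b)
          = b⁻¹ * l⁻¹ * (b⁻¹ * b) * u * (b * b) * l * b := by group
        _ = b * l⁻¹ * u * l * b := by rw [h.bb, eb, h.bb, mul_one, mul_one]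
        _ = _ := by group
    rw [e]
    exact F.inv.2 _ hu
  have ebb : b * (b * k * b) * b = k := by
    calc b * (b * k * b) * b = (b * b) * k * (b * b) := by group
      _ = k := by rw [h.bb, one_mul, mul_one]
  refine ⟨cjg k U ⊓ cjg (b * k * b) U, ⟨?_, ⟨?_, ?_⟩, ?_, ?_, ?_⟩, inf_le_left⟩
  · intro g hg
    have h1 := F.le (mem_cjg.1 hg.1)
    have e : g = k * (k⁻¹ * g * k) * k⁻¹ := by group
    rw [e]
    exact K.mul_mem (K.mul_mem hkK h1) (K.inv_mem hkK)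
  · intro u hu
    exact ⟨ia k hk u hu.1, ia _ hkb u hu.2⟩
  · intro u hu
    refine ⟨?_, ib k u hu.1⟩
    have := ib _ u hu.2
    rwa [ebb] at this
  · exact Subgroup.relIndex_inf_ne_zero (r1 k hk) (r1 _ hkb)
  · exact Subgroup.relIndex_inf_ne_zero (r2 k hk) (r2 _ hkb)
  · exact Subgroup.relIndex_inf_ne_zero (r3 k hk) (r3 _ hkb)

/-- Below every conjugate of a member of the family there is a member of the family. -/
theorem stepD (h : Fr K a b c) (t : AT K a b c) (hFf : (Fx K a b : Set G).Finite)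
    {U : Subgroup G} (F : Fam K a b c U) {k : G} (hk : k ∈ K) :
    ∃ U', Fam K a b c U' ∧ U' ≤ cjg k U := by
  obtain ⟨α, β, γ, hα, hβ, hγ, e, h1, h2, -, h3, -⟩ := h.fac (X := K) le_rfl
    (fun u hu => h.cjmem h.aa hu) (fun u hu => h.cjmem h.bb hu) hk
  have hFb : (Fx K b c : Set G).Finite := by rw [Fct.fx_bc h]; exact hFf
  have hFc : (Fx K c a : Set G).Finite := by rw [Fct.fx_swap, Fct.fx_ac h]; exact hFf
  obtain ⟨U3, F3, l3⟩ := stepC h.rot.rot t.rot.rot hFc ((F.rot h).rot h.rot)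
    (mem_Cz.2 ⟨hγ, h3⟩)
  obtain ⟨U2, F2, l2⟩ := stepC h.rot t.rot hFb (F3.rot h.rot.rot |>.rot h)
    (mem_Cz.2 ⟨hβ, h2⟩)
  obtain ⟨U1, F1, l1⟩ := stepC h t hFf ((F2.rot h.rot).rot h.rot.rot) (mem_Cz.2 ⟨hα, h1⟩)
  refine ⟨U1, F1, ?_⟩
  rw [e, ← cjg_mul, ← cjg_mul]
  exact l1.trans (cjg_mono (l2.trans (cjg_mono l3)))

/-- THEOREM FI. -/
theorem thmFI (h : Fr K a b c) (t : AT K a b c) (hFf : (Fx K a b : Set G).Finite)
    {U : Subgroup G} (F : Fam K a b c U) : U.relIndex K ≠ 0 := by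
  have fin : ∀ g ∈ K, ∀ v, v = a ∨ v = b ∨ v = c →
      {q : G ⧸ U | ∃ d ∈ Cz K v, q = d • (g : G ⧸ U)}.Finite := by
    intro g hg v hv
    obtain ⟨U', F', l⟩ := stepD h t hFf F hg
    have r : (cjg g U).relIndex (Cz K v) ≠ 0 := by
      intro h0
      have h1 := Subgroup.relIndex_eq_zero_of_le_left l h0
      rcases hv with rfl | rfl | rfl
      · exact F'.ia h1
      · exact F'.ib h1
      · exact F'.ic h1
    obtain ⟨R, hR, hR1⟩ := Fct.reps r
    refine (hR.image (fun r => r⁻¹ • (g : G ⧸ U))).subset ?_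
    rintro q ⟨d, hd, rfl⟩
    obtain ⟨r, hr, n, hn, e⟩ := hR1 _ ((Cz K v).inv_mem hd)
    refine ⟨r, hr, ?_⟩
    have e1 : d = r⁻¹ * n⁻¹ := by rw [← mul_inv_rev, ← e, inv_inv]
    have e2 : n⁻¹ • (g : G ⧸ U) = g := by
      rw [MulAction.Quotient.smul_coe, smul_eq_mul, QuotientGroup.eq]
      have := (mem_cjg.1 hn)
      have e3 : (n⁻¹ * g)⁻¹ * g = g⁻¹ * n * g := by group
      rw [e3]; exact this
    show r⁻¹ • (g : G ⧸ U) = d • (g : G ⧸ U)
    rw [e1, mul_smul, e2]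
  have fC := fin 1 K.one_mem c (Or.inr (Or.inr rfl))
  have fB : {q : G ⧸ U | ∃ β ∈ Cz K b, ∃ γ ∈ Cz K c, q = ((β * γ : G) : G ⧸ U)}.Finite := by
    have h1 : {q : G ⧸ U | ∃ β ∈ Cz K b, ∃ γ ∈ Cz K c, q = ((β * γ : G) : G ⧸ U)} ⊆
        ⋃ p ∈ {q : G ⧸ U | ∃ d ∈ Cz K c, q = d • ((1 : G) : G ⧸ U)},
          {q : G ⧸ U | ∃ d ∈ Cz K b, q = d • p} := by
      rintro q ⟨β, hβ, γ, hγ, rfl⟩
      simp only [Set.mem_iUnion]
      refine ⟨((γ : G) : G ⧸ U), ⟨γ, hγ, ?_⟩, β, hβ, ?_⟩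
      · rw [MulAction.Quotient.smul_coe, smul_eq_mul, mul_one]
      · rw [MulAction.Quotient.smul_coe, smul_eq_mul]
    refine (fC.biUnion ?_).subset h1
    rintro p ⟨γ, hγ, rfl⟩
    have := fin γ (mem_Cz.1 hγ).1 b (Or.inr (Or.inl rfl))
    rw [MulAction.Quotient.smul_coe, smul_eq_mul, mul_one]
    exact this
  have fA : {q : G ⧸ U | ∃ g ∈ K, q = g • ((1 : G) : G ⧸ U)}.Finite := by
    have h1 : {q : G ⧸ U | ∃ g ∈ K, q = g • ((1 : G) : G ⧸ U)} ⊆
        ⋃ p ∈ {q : G ⧸ U | ∃ β ∈ Cz K b, ∃ γ ∈ Cz K c, q = ((β * γ : G) : G ⧸ U)},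
          {q : G ⧸ U | ∃ d ∈ Cz K a, q = d • p} := by
      rintro q ⟨g, hg, rfl⟩
      obtain ⟨α, β, γ, hα, hβ, hγ, e, h1, h2, -, h3, -⟩ := h.fac (X := K) le_rfl
        (fun u hu => h.cjmem h.aa hu) (fun u hu => h.cjmem h.bb hu) hg
      simp only [Set.mem_iUnion]
      refine ⟨((β * γ : G) : G ⧸ U), ⟨β, mem_Cz.2 ⟨hβ, h2⟩, γ, mem_Cz.2 ⟨hγ, h3⟩, rfl⟩, α,
        mem_Cz.2 ⟨hα, h1⟩, ?_⟩
      rw [MulAction.Quotient.smul_coe, MulAction.Quotient.smul_coe, smul_eq_mul, smul_eq_mul,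
        mul_one, e, mul_assoc]
    refine (fB.biUnion ?_).subset h1
    rintro p ⟨β, hβ, γ, hγ, rfl⟩
    exact fin (β * γ) (K.mul_mem (mem_Cz.1 hβ).1 (mem_Cz.1 hγ).1) a (Or.inl rfl)
  have h2 := stab_rel fA
  refine Fct.rel_le h2 ?_
  intro g _ hgs
  have e1 := MulAction.mem_stabilizer_iff.1 hgs
  rw [MulAction.Quotient.smul_coe, smul_eq_mul, mul_one, QuotientGroup.eq, mul_one] at e1
  have := U.inv_mem e1
  rwa [inv_inv] at this

end Pool.Agent.FourGp.FF.Fi
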