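import Pool.Agent.Lib.MP_fb3619_al.Iface

/-!
# Module TFORM: multiplication by `x x'` is in the centroid (helper74)
-/

universe u

namespace Pool.Agent.FourGp.H74

open Pool.Agent.FourGp

variable {X Y Z : Type u} [AddCommGroup X] [AddCommGroup Y] [AddCommGroup Z] (T : Tri X Y Z)

/-- `y ↦ x (x' y)` -/
def fa (x x' : X) : Y →+ Y where
  toFun y := T.zx (T.xy x' y) x
  map_zero' := by simp
  map_add' := by intro a b; simp

/-- `z ↦ x (x' z)` -/
def fb (x x' : X) : Z →+ Z where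
  toFun z := T.xy x (T.zx z x')
  map_zero' := by simp
  map_add' := by intro a b; simp

variable {T}

theorem l1 (h : T.P1) (x x' p : X) (y : Y) :
    T.xy p (fa T x x' y) = fb T x x' (T.xy p y) := by
  show T.xy p (T.zx (T.xy x' y) x) = T.xy x (T.zx (T.xy p y) x')
  rw [h.p2 p x (T.xy x' y), h.p1 p x' y]

theorem l2 (h : T.P1) (x x' p : X) (z : Z) :
    T.zx (fb T x x' z) p = fa T x x' (T.zx z p) := by
  show T.zx (T.xy x (T.zx z x')) p = T.zx (T.xy x' (T.zx z p)) x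
  rw [h.p1 p x (T.zx z x'), h.p2 p x' z]

theorem l3 (h : T.P1) (x x' : X) (y : Y) (z : Z) :
    T.yz (fa T x x' y) z = T.yz y (fb T x x' z) := by
  show T.yz (T.zx (T.xy x' y) x) z = T.yz y (T.xy x (T.zx z x'))
  rw [h.p5 z (T.xy x' y) x, h.p4 (T.zx z x) y x', h.p2 x' x z]

theorem l4 (h : T.P1) (x x' : X) (y0 y : Y) (z0 : Z) :
    T.xy (T.yz (fa T x x' y0) z0) y = T.xy (T.yz y0 z0) (fa T x x' y) := by
  rw [h.p3 y (fa T x x' y0) z0, l1 h, h.p3 y0 y z0, l1 h]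

theorem l5 (h : T.P1) (x x' : X) (y0 : Y) (z0 z : Z) :
    T.zx z (T.yz (fa T x x' y0) z0) = T.zx (fb T x x' z) (T.yz y0 z0) := by
  rw [l3 h, h.p6 z (fb T x x' z0) y0, l2 h, h.p6 z0 z y0, l2 h]

theorem ex_u (h : T.P1) (x x' m : X) (hm : m ∈ T.MX) : ∃ u ∈ T.MX,
    (∀ y, T.xy u y = T.xy m (fa T x x' y)) ∧ ∀ z, T.zx z u = T.zx (fb T x x' z) m := by
  unfold Tri.MX at hm
  induction hm using AddSubgroup.closure_induction with
  | mem m hm =>
    obtain ⟨y0, z0, rfl⟩ := hm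
    exact ⟨T.yz (fa T x x' y0) z0, AddSubgroup.subset_closure ⟨_, _, rfl⟩,
      fun y => l4 h x x' y0 y z0, fun z => l5 h x x' y0 z0 z⟩
  | zero => exact ⟨0, zero_mem _, fun y => by simp, fun z => by simp⟩
  | add m m' _ _ h1 h2 =>
    obtain ⟨u, hu, h3, h4⟩ := h1
    obtain ⟨u', hu', h3', h4'⟩ := h2
    refine ⟨u + u', add_mem hu hu', fun y => ?_, fun z => ?_⟩
    · rw [map_add, map_add, AddMonoidHom.add_apply, AddMonoidHom.add_apply, h3, h3']
    · rw [map_add, map_add, h4, h4']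
  | neg m _ h1 =>
    obtain ⟨u, hu, h3, h4⟩ := h1
    refine ⟨-u, neg_mem hu, fun y => ?_, fun z => ?_⟩
    · rw [map_neg, map_neg, AddMonoidHom.neg_apply, AddMonoidHom.neg_apply, h3]
    · rw [map_neg, map_neg, h4]

theorem uniq_u (h : T.SA) (u u' : X) (h1 : ∀ y, T.xy u y = T.xy u' y) : u = u' := by
  have h2 := h.sxy (u - u') (fun y _ => by
    rw [map_sub, AddMonoidHom.sub_apply, h1, sub_self])
  exact sub_eq_zero.1 h2

/-- **TFORM** -/
theorem tform : TformS.{u} := by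
  intro X Y Z _ _ _ T hT x x'
  have hp := hT.p
  have hs := hT.s
  choose f hf1 hf2 using fun m : T.MX => ex_u hp x x' m.1 m.2
  let e1 : AddMonoid.End T.MX := AddMonoidHom.mk' (fun m => (⟨f m, hf1 m⟩ : T.MX)) (by
    intro m m'
    apply Subtype.ext
    show f (m + m') = f m + f m'
    refine uniq_u hs _ _ fun y => ?_
    rw [(hf2 (m + m')).1 y, map_add, AddMonoidHom.add_apply, (hf2 m).1 y, (hf2 m').1 y]
    show T.xy (m.1 + m'.1) _ = _
    rw [map_add, AddMonoidHom.add_apply])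
  let e2 : AddMonoid.End T.MY := AddMonoidHom.mk' (fun m => (⟨fa T x x' m.1,
    AddSubgroup.subset_closure ⟨_, _, rfl⟩⟩ : T.MY)) (by
    intro m m'
    apply Subtype.ext
    show fa T x x' (m.1 + m'.1) = _
    rw [map_add]
    rfl)
  let e3 : AddMonoid.End T.MZ := AddMonoidHom.mk' (fun m => (⟨fb T x x' m.1,
    AddSubgroup.subset_closure ⟨_, _, rfl⟩⟩ : T.MZ)) (by
    intro m m'
    apply Subtype.ext
    show fb T x x' (m.1 + m'.1) = _
    rw [map_add]
    rfl)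
  have E1 : ∀ m : T.MX, ∀ y, T.xy (e1 m).1 y = T.xy m.1 (fa T x x' y) := fun m => (hf2 m).1
  have E2 : ∀ m : T.MX, ∀ z, T.zx z (e1 m).1 = T.zx (fb T x x' z) m.1 := fun m => (hf2 m).2
  have E3 : ∀ (y : T.MY) (z : T.MZ), (e1 (T.pYZ y z)).1 = T.yz (fa T x x' y.1) z.1 := by
    intro y z
    refine uniq_u hs _ _ fun y' => ?_
    rw [E1, l4 hp]
    rfl
  refine ⟨(e1, e2, e3), ⟨?_, ?_, ?_, ?_, ?_, ?_⟩, fun _ => rfl, fun _ => rfl, E1, E2⟩
  · intro m y
    apply Subtype.ext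
    show fb T x x' (T.xy m.1 y.1) = T.xy (e1 m).1 y.1
    rw [E1, l1 hp]
  · intro m y
    apply Subtype.ext
    show fb T x x' (T.xy m.1 y.1) = T.xy m.1 (fa T x x' y.1)
    rw [l1 hp]
  · intro y z
    apply Subtype.ext
    exact E3 y z
  · intro y z
    apply Subtype.ext
    refine (E3 y z).trans ?_
    exact l3 hp x x' y.1 z.1
  · intro z m
    apply Subtype.ext
    show fa T x x' (T.zx z.1 m.1) = T.zx (fb T x x' z.1) m.1
    rw [l2 hp]
  · intro z m
    apply Subtype.ext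
    show fa T x x' (T.zx z.1 m.1) = T.zx z.1 (e1 m).1
    rw [E2, l2 hp]

end Pool.Agent.FourGp.H74
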