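import Pool.Agent.Lib.MP_fb3619_al.FF.Fct
import Pool.Agent.Lib.MP_fb3619_al.FF.Cov
import Pool.Agent.Lib.MP_fb3619_al.FF.Cnt
import Pool.Agent.Lib.MP_fb3619_al.FF.Pt
import Pool.Agent.Lib.MP_fb3619_al.FF.Uu

/-!
# MP_fb3619_al, THEOREM FI (finding 4508 of helper4), part 1: points, frames, colourings

`G` acts on `Ω`, `ω` is a point fixed by the four-group and by `C_K(V)`, whose orbits under
`C_K(a)`, `C_K(b)`, `C_K(c)` are finite.  All points are in the `K`-orbit of `ω`.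
-/

set_option autoImplicit false

universe u v

namespace Pool.Agent.FourGp.FF.Fi

open Pool.Agent.FourGp.H47 (Odd' inv_of_sq conj_inv_pow mul_inv_self odd_conj comm_of_inv
  mul_inv_self' comm_pow comm_inv conj_comm comm_conj)
open Pool.Agent.FourGp.H99 (LF)

variable {G : Type u} [Group G] {K : Subgroup G} {a b c : G} {Ω : Type v} [MulAction G Ω] {ω : Ω}

/-- A base point with finite orbits under the centralizers of `a`, `b`, `c`. -/
structure Obj (K : Subgroup G) (a b c : G) (ω : Ω) : Prop where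
  fa : a • ω = ω
  fb : b • ω = ω
  fc : c • ω = ω
  fF : ∀ f, f ∈ K → f * a = a * f → f * b = b * f → f * c = c * f → f • ω = ω
  ia : {p : Ω | ∃ d ∈ Cz K a, p = d • ω}.Finite
  ib : {p : Ω | ∃ d ∈ Cz K b, p = d • ω}.Finite
  ic : {p : Ω | ∃ d ∈ Cz K c, p = d • ω}.Finite

theorem Obj.rot (O : Obj K a b c ω) : Obj K b c a ω where
  fa := O.fb
  fb := O.fc
  fc := O.fa
  fF := fun f hf h1 h2 h3 => O.fF f hf h3 h1 h2
  ia := O.ib
  ib := O.ic
  ic := O.ia

theorem Obj.swap (O : Obj K a b c ω) : Obj K b a c ω where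
  fa := O.fb
  fb := O.fa
  fc := O.fc
  fF := fun f hf h1 h2 h3 => O.fF f hf h2 h1 h3
  ia := O.ib
  ib := O.ia
  ic := O.ic

/-- The points of the `K`-orbit of `ω`. -/
def Ko (K : Subgroup G) (ω p : Ω) : Prop := ∃ g ∈ K, p = g⁻¹ • ω

theorem Ko.smul {p : Ω} (hp : Ko K ω p) {g : G} (hg : g ∈ K) : Ko K ω (g • p) := by
  obtain ⟨k, hk, rfl⟩ := hp
  refine ⟨k * g⁻¹, K.mul_mem hk (K.inv_mem hg), ?_⟩
  rw [mul_inv_rev, inv_inv, mul_smul]

theorem ko_self : Ko K ω ω := ⟨1, K.one_mem, by rw [inv_one, one_smul]⟩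

theorem fix_pow {g : G} {p : Ω} (h : g • p = p) (n : ℕ) : g ^ n • p = p :=
  (MulAction.stabilizer G p).pow_mem (MulAction.mem_stabilizer_iff.2 h) n

theorem fix_mul {g g' : G} {p : Ω} (h : g • p = p) (h' : g' • p = p) : (g * g') • p = p := by
  rw [mul_smul, h', h]

theorem fix_inv {g : G} {p : Ω} (h : g • p = p) : g⁻¹ • p = p := by
  conv_lhs => rw [← h]
  rw [inv_smul_smul]

/-- An element of odd order whose square fixes a point fixes it. -/
theorem fix_of_sq {s : G} (hs : Odd' s) {p : Ω} (h : (s * s) • p = p) : s • p = p := by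
  obtain ⟨k, hk⟩ := hs.sqrt
  have h1 : (s * s) ^ k • p = p := fix_pow h k
  have e : (s * s) ^ k = s := by
    rw [(Commute.refl s).mul_pow k, hk]
  rwa [e] at h1

/-- An involution of type `a` which fixes the point `p`. -/
theorem fix_a (h : Fr K a b c) (fa : a • ω = ω) {x : G} (hx : Ty K a x) {p : Ω}
    (hp : Ko K ω p) (hxp : x • p = p) : ∃ g ∈ K, x = g⁻¹ * a * g ∧ p = g⁻¹ • ω := by
  obtain ⟨k, hk, rfl⟩ := hp
  have hx' : Ty K a (k * x * k⁻¹) := by
    have := h.ty_conj hx (K.inv_mem hk)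
    rwa [inv_inv] at this
  have f' : (k * x * k⁻¹) • ω = ω := by
    rw [mul_smul, mul_smul, hxp, smul_inv_smul]
  obtain ⟨j, hj⟩ := h.ty_cj h.ty_a hx'
  have hu : (a * (k * x * k⁻¹)) ^ j ∈ K := K.pow_mem (h.ty_mul h.ty_a hx') j
  have fu : (a * (k * x * k⁻¹)) ^ j • ω = ω := fix_pow (fix_mul fa f') j
  obtain ⟨u, hu'⟩ : ∃ u, u = (a * (k * x * k⁻¹)) ^ j := ⟨_, rfl⟩
  rw [← hu'] at hj hu fu
  refine ⟨u * k, K.mul_mem hu hk, ?_, ?_⟩
  · calc x = k⁻¹ * (k * x * k⁻¹) * k := by group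
      _ = k⁻¹ * (u⁻¹ * a * u) * k := by rw [hj]
      _ = (u * k)⁻¹ * a * (u * k) := by group
  · rw [mul_inv_rev, mul_smul, fix_inv fu]

/-- The points fixed by `a` are the points of the orbit of `ω` under `C_K(a)`. -/
theorem fix_base (h : Fr K a b c) (fa : a • ω = ω) {p : Ω} (hp : Ko K ω p) (hap : a • p = p) :
    ∃ k ∈ Cz K a, p = k⁻¹ • ω := by
  obtain ⟨k, hk, h1, h2⟩ := fix_a h fa h.ty_a hp hap
  exact ⟨k, mem_Cz.2 ⟨hk, comm_conj h1.symm⟩, h2⟩

/-- Only `ω` is fixed by the four-group. -/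
theorem uniq0 (h : Fr K a b c) (O : Obj K a b c ω) {p : Ω} (hp : Ko K ω p) (h1 : a • p = p)
    (h2 : b • p = p) : p = ω := by
  obtain ⟨k, hk, rfl⟩ := fix_base h O.fa hp h1
  obtain ⟨w, s, hw, hs, e, hwb, hsb⟩ := h.dec (X := Cz K a) (fun _ hg => (mem_Cz.1 hg).1) h.bb
    (fun u hu => by
      refine mem_Cz.2 ⟨h.cjmem h.bb (mem_Cz.1 hu).1, ?_⟩
      calc b * u * b * a = b * u * (b * a) := by group
        _ = b * u * (a * b) := by rw [h.ba, h.ab]
        _ = b * (u * a) * b := by group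
        _ = b * (a * u) * b := by rw [(mem_Cz.1 hu).2]
        _ = (b * a) * u * b := by group
        _ = (a * b) * u * b := by rw [h.ba, h.ab]
        _ = a * (b * u * b) := by group) hk
  have hwa := (mem_Cz.1 hw).2
  have hwc : w * c = c * w := by
    have c1 : Commute w a := hwa
    have c2 : Commute w b := hwb
    rw [← h.ab]
    exact c1.mul_right c2
  have fw : w • ω = ω := O.fF w (mem_Cz.1 hw).1 hwa hwb hwc
  have e1 : k⁻¹ • ω = s⁻¹ • ω := by
    rw [e, mul_inv_rev, mul_smul, fix_inv fw]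
  rw [e1] at h2 ⊢
  have e2 : b * s⁻¹ = s * b := by
    calc b * s⁻¹ = b * (b * s * b) := by rw [hsb]
      _ = (b * b) * s * b := by group
      _ = s * b := by rw [h.bb, one_mul]
  have e3 : s • ω = s⁻¹ • ω := by
    rw [← h2, ← mul_smul, e2, mul_smul, O.fb]
  have e4 : (s * s) • ω = ω := by
    rw [mul_smul, e3, smul_inv_smul]
  exact fix_inv (fix_of_sq (h.odd s (mem_Cz.1 hs).1) e4)

/-- Two commuting involutions of types `a`, `b` fix only one common point. -/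
theorem uniq (h : Fr K a b c) (O : Obj K a b c ω) {x y : G} (hx : Ty K a x) (hy : Ty K b y)
    (hxy : x * y = y * x) {p q : Ω} (hp : Ko K ω p) (hq : Ko K ω q) (h1 : x • p = p)
    (h2 : y • p = p) (h3 : x • q = q) (h4 : y • q = q) : p = q := by
  obtain ⟨g, hg, rfl, rfl⟩ := h.flag hx hy hxy
  have key : ∀ r : Ω, Ko K ω r → (g⁻¹ * a * g) • r = r → (g⁻¹ * b * g) • r = r → g • r = ω := by
    intro r hr e1 e2
    refine uniq0 h O (hr.smul hg) ?_ ?_
    · calc a • g • r = g • (g⁻¹ * a * g) • r := by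
            rw [← mul_smul, ← mul_smul]; congr 1; group
        _ = g • r := by rw [e1]
    · calc b • g • r = g • (g⁻¹ * b * g) • r := by
            rw [← mul_smul, ← mul_smul]; congr 1; group
        _ = g • r := by rw [e2]
  have e5 := (key p hp h1 h2).trans (key q hq h3 h4).symm
  exact smul_left_cancel g e5

/-- Two commuting involutions of types `a`, `b` fix a common point. -/
theorem flag_pt (h : Fr K a b c) (O : Obj K a b c ω) {x y : G} (hx : Ty K a x) (hy : Ty K b y)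
    (hxy : x * y = y * x) : ∃ p : Ω, Ko K ω p ∧ x • p = p ∧ y • p = p := by
  obtain ⟨g, hg, rfl, rfl⟩ := h.flag hx hy hxy
  refine ⟨g⁻¹ • ω, ⟨g, hg, rfl⟩, ?_, ?_⟩
  · calc (g⁻¹ * a * g) • g⁻¹ • ω = g⁻¹ • a • ω := by
          rw [← mul_smul, ← mul_smul]; congr 1; group
      _ = g⁻¹ • ω := by rw [O.fa]
  · calc (g⁻¹ * b * g) • g⁻¹ • ω = g⁻¹ • b • ω := by
          rw [← mul_smul, ← mul_smul]; congr 1; group
      _ = g⁻¹ • ω := by rw [O.fb]

/-- PARITY: two different points are not fixed by one involution of type `a` and swapped by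
another one. -/
theorem no_swap (h : Fr K a b c) {x x' : G} (hx : Ty K a x) (hx' : Ty K a x') {p q : Ω}
    (h1 : x • p = p) (h2 : x • q = q) (h3 : x' • p = q) (h4 : x' • q = p) : p = q := by
  obtain ⟨n, hn⟩ := h.odd _ (h.ty_mul hx hx')
  have e1 : (x * x') • p = q := by rw [mul_smul, h3, h2]
  have e2 : (x * x') • q = p := by rw [mul_smul, h4, h1]
  have e3 : ∀ m : ℕ, (x * x') ^ (2 * m) • p = p := by
    intro m
    rw [pow_mul]
    refine fix_pow ?_ m
    rw [pow_two, mul_smul, e1, e2]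
  calc p = (x * x') ^ (2 * n + 1) • p := by rw [hn, one_smul]
    _ = (x * x') • (x * x') ^ (2 * n) • p := by rw [pow_succ', mul_smul]
    _ = q := by rw [e3, e1]

/-- Two involutions of types `a`, `b` which swap the same two points: an involution of type `c`
which commutes with both and fixes both points. -/
theorem fix_of_swaps (h : Fr K a b c) {x y : G} (hx : Ty K a x) (hy : Ty K b y) {p q : Ω}
    (h1 : x • p = q) (h2 : x • q = p) (h3 : y • p = q) (h4 : y • q = p) :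
    ∃ z, Ty K c z ∧ z * x = x * z ∧ z * y = y * z ∧ z • p = p ∧ z • q = q := by
  obtain ⟨m, hm, e1, e2⟩ := h.perp hx hy
  refine ⟨(x * y) ^ m, hm, e1, e2, fix_pow ?_ m, fix_pow ?_ m⟩
  · rw [mul_smul, h3, h2]
  · rw [mul_smul, h4, h1]

/-- COLOURING: for every involution `z` of type `c` the pairs `(y, p)`, `y` of type `b`
perpendicular to `z`, `p` a point fixed by `y`, have finitely many colours such that pairs of the
same colour differ by an element of `T_z`. -/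
theorem col (h : Fr K a b c) (O : Obj K a b c ω) {T : Subgroup G}
    (hT : T.relIndex (Cz K c) ≠ 0) (hTT : ∀ t ∈ T, TT K a b c c t) :
    ∃ (C : Type (max u v)) (_ : Finite C), ∀ z, Ty K c z → ∃ col : G → Ω → C,
      ∀ y p y' p', Ty K b y → y * z = z * y → y • p = p → Ko K ω p →
        Ty K b y' → y' * z = z * y' → y' • p' = p' → Ko K ω p' → col y p = col y' p' →
        ∃ e, TT K a b c z e ∧ y' = e⁻¹ * y * e ∧ p' = e⁻¹ • p := by
  classical
  obtain ⟨R, hR, hR1⟩ := Fct.reps hT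
  obtain ⟨P, hP⟩ : ∃ P : Set Ω, P = {p : Ω | ∃ d ∈ Cz K b, p = d • ω} := ⟨_, rfl⟩
  have hPf : P.Finite := by rw [hP]; exact O.ib
  refine ⟨Option (R ×ˢ P : Set (G × Ω)), ?_, ?_⟩
  · have : Finite (R ×ˢ P : Set (G × Ω)) := (hR.prod hPf).to_subtype
    infer_instance
  intro z hz
  obtain ⟨i, hi⟩ := h.rot.rot.ty_cj h.rot.rot.ty_a hz
  obtain ⟨g0, hg0⟩ : ∃ g0, g0 = (c * z) ^ i := ⟨_, rfl⟩
  have hg0K : g0 ∈ K := by
    rw [hg0]; exact K.pow_mem (h.rot.rot.ty_mul h.rot.rot.ty_a hz) i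
  rw [← hg0] at hi
  -- the data of a pair
  obtain ⟨D, hD⟩ : ∃ D : G → Ω → G × Ω → Prop, D = fun y p rq => rq ∈ R ×ˢ P ∧ ∃ n ∈ T,
    (n * rq.1) ∈ Cz K c ∧ y = (n * rq.1 * g0)⁻¹ * b * (n * rq.1 * g0) ∧
      p = (n * rq.1 * g0)⁻¹ • rq.2 := ⟨_, rfl⟩
  have hex : ∀ y p, Ty K b y → y * z = z * y → y • p = p → Ko K ω p → ∃ rq, D y p rq := by
    intro y p hy hyz hyp hp
    obtain ⟨g, hg, e1, e2⟩ := h.rot.flag hy hz hyz
    have hcz : g * g0⁻¹ ∈ Cz K c := by
      refine mem_Cz.2 ⟨K.mul_mem hg (K.inv_mem hg0K), ?_⟩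
      have e3 : g0⁻¹ * c * g0 = g⁻¹ * c * g := by rw [hi, e2]
      calc g * g0⁻¹ * c = g * (g0⁻¹ * c * g0) * g0⁻¹ := by group
        _ = g * (g⁻¹ * c * g) * g0⁻¹ := by rw [e3]
        _ = c * (g * g0⁻¹) := by group
    obtain ⟨r, hr, n, hn, e3⟩ := hR1 _ hcz
    have hgp : Ko K ω (g • p) := hp.smul hg
    have hbp : b • g • p = g • p := by
      calc b • g • p = g • (g⁻¹ * b * g) • p := by
            rw [← mul_smul, ← mul_smul]; congr 1; group
        _ = g • p := by rw [← e1, hyp]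
    obtain ⟨k, hk, e4⟩ := fix_base h.rot O.fb hgp hbp
    have e5 : g = n * r * g0 := by rw [← e3]; group
    refine ⟨(r, g • p), ?_⟩
    rw [hD]
    refine ⟨⟨hr, ?_⟩, n, hn, ?_, ?_, ?_⟩
    · rw [hP]
      exact ⟨k⁻¹, (Cz K b).inv_mem hk, e4⟩
    · show n * r ∈ Cz K c
      rw [← e3]; exact hcz
    · show y = (n * r * g0)⁻¹ * b * (n * r * g0)
      rw [← e5]; exact e1
    · show p = (n * r * g0)⁻¹ • g • p
      rw [← e5, inv_smul_smul]
  have hDm : ∀ y p rq, D y p rq → rq ∈ R ×ˢ P := by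
    intro y p rq hh
    rw [hD] at hh
    exact hh.1
  refine ⟨fun y p => if hh : ∃ rq, D y p rq then
      some ⟨hh.choose, hDm _ _ _ hh.choose_spec⟩ else none, ?_⟩
  intro y p y' p' hy hyz hyp hp hy' hyz' hyp' hp' hcol
  have h1 := hex y p hy hyz hyp hp
  have h2 := hex y' p' hy' hyz' hyp' hp'
  simp only [h1, h2, dite_true] at hcol
  have h3 : h1.choose = h2.choose := by
    have := Option.some.inj hcol
    exact congrArg Subtype.val this
  have s1 := h1.choose_spec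
  have s2 := h2.choose_spec
  rw [← h3] at s2
  generalize h1.choose = rq at s1 s2
  rw [hD] at s1 s2
  obtain ⟨-, n, hn, hnc, e1, e2⟩ := s1
  obtain ⟨-, n', hn', hnc', e1', e2'⟩ := s2
  obtain ⟨g, hg⟩ : ∃ g, g = n * rq.1 * g0 := ⟨_, rfl⟩
  have hgK : g ∈ K := by
    rw [hg]; exact K.mul_mem (mem_Cz.1 hnc).1 hg0K
  have e3 : n' * rq.1 * g0 = n' * n⁻¹ * g := by rw [hg]; group
  rw [← hg] at e1 e2
  rw [e3] at e1' e2'
  have hz2 : z = g⁻¹ * c * g := by
    rw [← hi, hg]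
    have := (mem_Cz.1 hnc).2
    calc g0⁻¹ * c * g0 = g0⁻¹ * ((n * rq.1)⁻¹ * ((n * rq.1) * c)) * g0 := by group
      _ = g0⁻¹ * ((n * rq.1)⁻¹ * (c * (n * rq.1))) * g0 := by rw [this]
      _ = _ := by group
  refine ⟨g⁻¹ * (n' * n⁻¹) * g, ?_, ?_, ?_⟩
  · rw [hz2]
    exact Uu.tt_conj h (Uu.pr_K h (K.inv_mem hgK)) (hTT _ (T.mul_mem hn' (T.inv_mem hn)))
  · rw [e1', e1]; group
  · rw [e2', e2, ← mul_smul]; congr 1; group

end Pool.Agent.FourGp.FF.Fi
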