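import Mathlib

/-!
# MP_fb3619_al, THEOREM FI (finding 4508 of helper4), part 2: the pigeonhole lemma
-/

set_option autoImplicit false

namespace Pool.Agent.FourGp.FF.Fi

/-- in a commutative group with elements of odd order squaring is injective -/
theorem sq_inj {A : Type*} [CommGroup A] (hodd : ∀ t : A, ∃ n : ℕ, t ^ (2 * n + 1) = 1)
    {s t : A} (h : s * s = t * t) : s = t := by
  obtain ⟨n, hn⟩ := hodd (s * t⁻¹)
  have e : (s * t⁻¹) * (s * t⁻¹) = 1 := by
    calc (s * t⁻¹) * (s * t⁻¹) = (s * s) * (t * t)⁻¹ := by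
          rw [mul_inv]; exact mul_mul_mul_comm _ _ _ _
      _ = 1 := by rw [h, mul_inv_cancel]
  have e2 : (s * t⁻¹) ^ (2 * n + 1) = s * t⁻¹ := by
    rw [pow_succ, pow_mul, pow_two, e, one_pow, one_mul]
  rw [hn] at e2
  exact (mul_inv_eq_one.1 e2.symm)

/-- the fibres of an orbit map of a finite subgroup -/
theorem fib_le {A : Type*} [CommGroup A] {Ω : Type*} [MulAction A Ω] [DecidableEq Ω]
    (SS : Finset A) (hmul : ∀ s ∈ SS, ∀ t ∈ SS, s * t⁻¹ ∈ SS) (x y : Ω) :
    (SS.filter (fun t => t • x = y)).card ≤ (SS.filter (fun t => t • x = x)).card := by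
  classical
  by_cases hne : (SS.filter (fun t => t • x = y)).Nonempty
  · obtain ⟨t0, ht0⟩ := hne
    rw [Finset.mem_filter] at ht0
    refine Finset.card_le_card_of_injOn (fun t => t * t0⁻¹) ?_ ?_
    · intro t ht
      have ht := Finset.mem_filter.1 ht
      refine Finset.mem_coe.2 (Finset.mem_filter.2 ⟨hmul _ ht.1 _ ht0.1, ?_⟩)
      show (t * t0⁻¹) • x = x
      rw [mul_comm, mul_smul, ht.2, ← ht0.2, inv_smul_smul]
    · intro s _ t _ e
      exact mul_right_cancel e
  · rw [Finset.not_nonempty_iff_eq_empty.1 hne]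
    simp

theorem comb {A : Type*} [CommGroup A] {Ω : Type*} [MulAction A Ω] {C : Type*} [Finite C]
    (hodd : ∀ t : A, ∃ n : ℕ, t ^ (2 * n + 1) = 1) (ρ : C → Ω)
    (hρ : ∀ c, (MulAction.orbit A (ρ c)).Infinite) (χ : A → C) (N : ℕ) :
    ∃ (c : C) (τ : A) (t : Fin N → A), (∀ i, χ (t i) = c ∧ χ (τ * (t i)⁻¹) = c ∧
      (τ * (t i)⁻¹) • ρ c ≠ t i • ρ c) ∧ Function.Injective (fun i => t i • ρ c) := by
  classical
  have : Fintype C := Fintype.ofFinite C
  obtain ⟨q, hq⟩ : ∃ q, q = Fintype.card C := ⟨_, rfl⟩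
  obtain ⟨M, hM⟩ : ∃ M, M = q * q * (N + 1) + 1 := ⟨_, rfl⟩
  -- a finite subgroup with large orbits
  have h1 : ∀ c, ∃ s : Finset A, M ≤ (s.image (fun t => t • ρ c)).card := by
    intro c
    obtain ⟨u, hu, hc⟩ := (hρ c).exists_subset_card_eq M
    have h2 : ∀ y : Ω, ∃ t : A, y ∈ u → t • ρ c = y := by
      intro y
      by_cases hy : y ∈ u
      · obtain ⟨t, ht⟩ := hu (Finset.mem_coe.2 hy)
        exact ⟨t, fun _ => ht⟩
      · exact ⟨1, fun h => absurd h hy⟩
    choose f hf using h2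
    refine ⟨u.image f, ?_⟩
    rw [← hc]
    refine Finset.card_le_card ?_
    intro y hy
    rw [Finset.mem_image]
    exact ⟨f y, Finset.mem_image_of_mem _ hy, hf y hy⟩
  choose s hs using h1
  obtain ⟨S, hS⟩ : ∃ S : Subgroup A, S = Subgroup.closure
      ((Finset.univ.biUnion s : Finset A) : Set A) := ⟨_, rfl⟩
  have hSfg : Group.FG S := by
    rw [Group.fg_iff_subgroup_fg, hS]
    exact ⟨_, rfl⟩
  have hStor : IsMulTorsion S := by
    intro t
    obtain ⟨n, hn⟩ := hodd t
    rw [isOfFinOrder_iff_pow_eq_one]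
    exact ⟨2 * n + 1, by omega, Subtype.ext (by push_cast; exact hn)⟩
  have hSfin : Finite S := CommGroup.finite_of_fg_isMulTorsion S hStor
  have hSf : (S : Set A).Finite := Set.toFinite _
  obtain ⟨SS, hSS⟩ : ∃ SS : Finset A, SS = hSf.toFinset := ⟨_, rfl⟩
  have mem : ∀ t, t ∈ SS ↔ t ∈ S := by intro t; rw [hSS]; simp
  have hdiv : ∀ s ∈ SS, ∀ t ∈ SS, s * t⁻¹ ∈ SS := by
    intro s hs t ht
    rw [mem] at hs ht ⊢
    exact S.mul_mem hs (S.inv_mem ht)
  have hone : (1 : A) ∈ SS := (mem 1).2 S.one_mem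
  have hmul : ∀ s ∈ SS, ∀ t ∈ SS, s * t ∈ SS := by
    intro s hs t ht
    rw [mem] at hs ht ⊢
    exact S.mul_mem hs ht
  have hcardS : ∀ c, M * (SS.filter (fun t => t • ρ c = ρ c)).card ≤ SS.card := by
    intro c
    have h3 : SS.card = ∑ y ∈ SS.image (fun t => t • ρ c),
        (SS.filter (fun t => t • ρ c = y)).card :=
      Finset.card_eq_sum_card_image (fun t : A => t • ρ c) SS
    have h4 : ∀ y ∈ SS.image (fun t => t • ρ c), (SS.filter (fun t => t • ρ c = ρ c)).card ≤
        (SS.filter (fun t => t • ρ c = y)).card := by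
      intro y hy
      obtain ⟨t0, ht0, rfl⟩ := Finset.mem_image.1 hy
      refine Finset.card_le_card_of_injOn (fun t => t * t0) ?_ ?_
      · intro t ht
        have ht := Finset.mem_filter.1 ht
        refine Finset.mem_coe.2 (Finset.mem_filter.2 ⟨hmul _ ht.1 _ ht0, ?_⟩)
        show (t * t0) • ρ c = t0 • ρ c
        rw [mul_comm, mul_smul, ht.2]
      · intro s _ t _ e
        exact mul_right_cancel e
    have h5 : M ≤ (SS.image (fun t => t • ρ c)).card := by
      refine (hs c).trans (Finset.card_le_card (Finset.image_subset_image ?_))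
      intro t ht
      rw [mem, hS]
      exact Subgroup.subset_closure (Finset.mem_coe.2 (Finset.mem_biUnion.2
        ⟨c, Finset.mem_univ _, ht⟩))
    rw [h3]
    calc M * (SS.filter (fun t => t • ρ c = ρ c)).card
        ≤ (SS.image (fun t => t • ρ c)).card * (SS.filter (fun t => t • ρ c = ρ c)).card :=
          Nat.mul_le_mul_right _ h5
      _ ≤ _ := by
          rw [← smul_eq_mul]
          exact Finset.card_nsmul_le_sum _ _ _ h4
  have hSpos : 0 < SS.card := Finset.card_pos.2 ⟨1, hone⟩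
  -- the large colour
  have hc : ∃ c, SS.card ≤ q * (SS.filter (fun t => χ t = c)).card := by
    by_contra hcon
    push Not at hcon
    have h6 : SS.card = ∑ c : C, (SS.filter (fun t => χ t = c)).card :=
      Finset.card_eq_sum_card_fiberwise (fun _ _ => Finset.mem_coe.2 (Finset.mem_univ _))
    have h7 : Nonempty C := ⟨χ 1⟩
    have h8 : q * SS.card = ∑ c : C, q * (SS.filter (fun t => χ t = c)).card := by
      rw [h6, Finset.mul_sum]
    have h9 : ∑ c : C, q * (SS.filter (fun t => χ t = c)).card < ∑ _c : C, SS.card :=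
      Finset.sum_lt_sum_of_nonempty Finset.univ_nonempty (fun c _ => hcon c)
    rw [← h8, Finset.sum_const, Finset.card_univ, smul_eq_mul, ← hq] at h9
    exact lt_irrefl _ h9
  obtain ⟨c, hc⟩ := hc
  obtain ⟨X, hX⟩ : ∃ X, X = SS.filter (fun t => χ t = c) := ⟨_, rfl⟩
  rw [← hX] at hc
  -- the popular product
  have hτ : ∃ τ ∈ SS, X.card * X.card ≤
      (X.filter (fun t => τ * t⁻¹ ∈ X)).card * SS.card := by
    by_contra hcon
    push Not at hcon
    have h6 : (X ×ˢ X).card = ∑ τ ∈ SS, ((X ×ˢ X).filter (fun p => p.1 * p.2 = τ)).card := by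
      refine Finset.card_eq_sum_card_fiberwise ?_
      intro p hp
      have hp := Finset.mem_product.1 hp
      rw [hX, Finset.mem_filter, Finset.mem_filter] at hp
      exact Finset.mem_coe.2 (hmul _ hp.1.1 _ hp.2.1)
    have h7 : ∀ τ ∈ SS, ((X ×ˢ X).filter (fun p => p.1 * p.2 = τ)).card ≤
        (X.filter (fun t => τ * t⁻¹ ∈ X)).card := by
      intro τ _
      refine Finset.card_le_card_of_injOn (fun p => p.1) ?_ ?_
      · intro p hp
        have hp := Finset.mem_filter.1 hp
        have hp' := Finset.mem_product.1 hp.1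
        refine Finset.mem_coe.2 (Finset.mem_filter.2 ⟨hp'.1, ?_⟩)
        have : τ * p.1⁻¹ = p.2 := by rw [← hp.2, mul_comm, inv_mul_cancel_left]
        rw [this]; exact hp'.2
      · intro p hp r hr e
        have hp := (Finset.mem_filter.1 hp).2
        have hr := (Finset.mem_filter.1 hr).2
        have e : p.1 = r.1 := e
        refine Prod.ext e ?_
        rw [← hr, ← e] at hp
        exact mul_left_cancel hp
    have h8 : (X ×ˢ X).card * SS.card ≤
        ∑ τ ∈ SS, (X.filter (fun t => τ * t⁻¹ ∈ X)).card * SS.card := by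
      rw [h6, Finset.sum_mul]
      exact Finset.sum_le_sum (fun τ hτ => Nat.mul_le_mul_right _ (h7 τ hτ))
    have h9 : ∑ τ ∈ SS, (X.filter (fun t => τ * t⁻¹ ∈ X)).card * SS.card <
        ∑ _τ ∈ SS, X.card * X.card :=
      Finset.sum_lt_sum_of_nonempty ⟨1, hone⟩ (fun τ hτ => hcon τ hτ)
    rw [Finset.sum_const, smul_eq_mul, mul_comm SS.card] at h9
    rw [Finset.card_product] at h8
    exact lt_irrefl _ (h8.trans_lt h9)
  obtain ⟨τ, hτS, hτ⟩ := hτ
  obtain ⟨Y, hY⟩ : ∃ Y, Y = X.filter (fun t => τ * t⁻¹ ∈ X) := ⟨_, rfl⟩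
  rw [← hY] at hτ
  obtain ⟨st, hst⟩ : ∃ st, st = (SS.filter (fun t => t • ρ c = ρ c)).card := ⟨_, rfl⟩
  have hstpos : 0 < st := by
    rw [hst]
    exact Finset.card_pos.2 ⟨1, Finset.mem_filter.2 ⟨hone, one_smul _ _⟩⟩
  have hYbig : M * st ≤ q * q * Y.card := by
    have h10 : SS.card * SS.card ≤ (q * q * Y.card) * SS.card := by
      calc SS.card * SS.card ≤ (q * X.card) * (q * X.card) := Nat.mul_le_mul hc hc
        _ = q * q * (X.card * X.card) := by ring
        _ ≤ q * q * (Y.card * SS.card) := Nat.mul_le_mul_left _ hτ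
        _ = _ := by ring
    have h11 : SS.card ≤ q * q * Y.card := Nat.le_of_mul_le_mul_right h10 hSpos
    rw [hst]
    exact (hcardS c).trans h11
  obtain ⟨Y', hY'⟩ : ∃ Y', Y' = Y.filter (fun t => ¬ (τ * t⁻¹) • ρ c = t • ρ c) := ⟨_, rfl⟩
  have hXS : ∀ t ∈ X, t ∈ SS := by
    intro t ht
    rw [hX] at ht
    exact (Finset.mem_filter.1 ht).1
  have hYX : ∀ t ∈ Y, t ∈ X := by
    intro t ht
    rw [hY] at ht
    exact (Finset.mem_filter.1 ht).1
  have hbad : (Y.filter (fun t => (τ * t⁻¹) • ρ c = t • ρ c)).card ≤ st := by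
    rw [hst]
    refine Finset.card_le_card_of_injOn (fun t => τ * (t * t)⁻¹) ?_ ?_
    · intro t ht
      have ht := Finset.mem_filter.1 ht
      have htS := hXS _ (hYX _ ht.1)
      refine Finset.mem_coe.2 (Finset.mem_filter.2 ⟨hdiv _ hτS _ (hmul _ htS _ htS), ?_⟩)
      show (τ * (t * t)⁻¹) • ρ c = ρ c
      have e : τ * (t * t)⁻¹ = t⁻¹ * (τ * t⁻¹) := by
        rw [mul_inv]
        calc τ * (t⁻¹ * t⁻¹) = (τ * t⁻¹) * t⁻¹ := by rw [mul_assoc]
          _ = _ := mul_comm _ _
      rw [e, mul_smul, ht.2, inv_smul_smul]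
    · intro s _ t _ e
      have e : τ * (s * s)⁻¹ = τ * (t * t)⁻¹ := e
      exact sq_inj hodd (inv_injective (mul_left_cancel e))
  have hsplit : Y.card ≤ st + Y'.card := by
    have := Finset.card_filter_add_card_filter_not (s := Y)
      (p := fun t => (τ * t⁻¹) • ρ c = t • ρ c)
    rw [hY', ← this]
    exact Nat.add_le_add_right hbad _
  have himg : N ≤ (Y'.image (fun t => t • ρ c)).card := by
    by_contra hcon
    push Not at hcon
    have h12 : Y'.card ≤ (Y'.image (fun t => t • ρ c)).card * st := by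
      rw [Finset.card_eq_sum_card_image (fun t : A => t • ρ c) Y', ← smul_eq_mul]
      refine Finset.sum_le_card_nsmul _ _ _ ?_
      intro y _
      refine le_trans (Finset.card_le_card ?_) (hst ▸ fib_le SS hdiv (ρ c) y)
      intro t ht
      have ht := Finset.mem_filter.1 ht
      refine Finset.mem_filter.2 ⟨hXS _ (hYX _ ?_), ht.2⟩
      have := ht.1
      rw [hY'] at this
      exact (Finset.mem_filter.1 this).1
    have h13 : Y'.card ≤ N * st :=
      h12.trans (Nat.mul_le_mul_right _ hcon.le)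
    have h14 : Y.card ≤ (N + 1) * st := by
      calc Y.card ≤ st + Y'.card := hsplit
        _ ≤ st + N * st := Nat.add_le_add_left h13 _
        _ = (N + 1) * st := by ring
    have h15 : M * st ≤ (q * q * (N + 1)) * st := by
      calc M * st ≤ q * q * Y.card := hYbig
        _ ≤ q * q * ((N + 1) * st) := Nat.mul_le_mul_left _ h14
        _ = _ := by ring
    have h16 : M ≤ q * q * (N + 1) := Nat.le_of_mul_le_mul_right h15 hstpos
    rw [hM] at h16
    omega
  obtain ⟨Z, hZ, hZc⟩ := Finset.exists_subset_card_eq himg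
  have hZ2 : ∀ z : Z, ∃ t ∈ Y', t • ρ c = z := by
    intro z
    obtain ⟨t, ht, e⟩ := Finset.mem_image.1 (hZ z.2)
    exact ⟨t, ht, e⟩
  choose f hf1 hf2 using hZ2
  have e0 : Fintype.card Z = N := by rw [Fintype.card_coe]; exact hZc
  obtain ⟨eq⟩ : Nonempty (Fin N ≃ Z) := ⟨(Fintype.equivFinOfCardEq e0).symm⟩
  refine ⟨c, τ, fun i => f (eq i), ?_, ?_⟩
  · intro i
    have h17 := hf1 (eq i)
    rw [hY', Finset.mem_filter] at h17
    have h18 := h17.1
    rw [hY, Finset.mem_filter] at h18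
    have h19 := h18.1
    have h20 := h18.2
    rw [hX, Finset.mem_filter] at h19 h20
    exact ⟨h19.2, h20.2, h17.2⟩
  · intro i j e
    have e : f (eq i) • ρ c = f (eq j) • ρ c := e
    rw [hf2, hf2] at e
    exact eq.injective (Subtype.ext e)

end Pool.Agent.FourGp.FF.Fi
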