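import Pool.Agent.Lib.MP_fb3619_al.H74.Fia
import Pool.Agent.Lib.MP_fb3619_al.H74.Fib

/-!
# MP_fb3619_al, THEOREM FI (finding 4508 of helper4), part 3: THEOREM X
-/

set_option autoImplicit false

universe u v

namespace Pool.Agent.FourGp.FF.Fi

open Pool.Agent.FourGp.H47 (Odd' inv_of_sq conj_inv_pow mul_inv_self odd_conj comm_of_inv
  mul_inv_self' comm_pow comm_inv conj_comm comm_conj)

variable {G : Type u} [Group G] {K : Subgroup G} {a b c : G} {Ω : Type v} [MulAction G Ω] {ω : Ω}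

theorem stab_rel {D : Subgroup G} {p : Ω} (hp : {q : Ω | ∃ d ∈ D, q = d • p}.Finite) :
    (MulAction.stabilizer G p).relIndex D ≠ 0 := by
  classical
  have h0 : ∀ q : Ω, ∃ d : G, (∃ d ∈ D, q = d • p) → d ∈ D ∧ q = d • p := by
    intro q
    by_cases hq : ∃ d ∈ D, q = d • p
    · obtain ⟨d, hd, e⟩ := hq
      exact ⟨d, fun _ => ⟨hd, e⟩⟩
    · exact ⟨1, fun h => absurd h hq⟩
  choose δ hδ using h0
  refine Fct.idx (R := (fun q => (δ q)⁻¹) '' {q : Ω | ∃ d ∈ D, q = d • p}) (hp.image _) ?_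
  intro g hg
  have h1 : ∃ d ∈ D, g⁻¹ • p = d • p := ⟨g⁻¹, D.inv_mem hg, rfl⟩
  obtain ⟨h2, h3⟩ := hδ _ h1
  refine ⟨_, ⟨g⁻¹ • p, h1, rfl⟩, g * δ (g⁻¹ • p), ?_, by group⟩
  rw [MulAction.mem_stabilizer_iff, mul_smul, ← h3, smul_inv_smul]

theorem orb_fin {T D : Subgroup G} (hT : T.relIndex D ≠ 0) {p : Ω}
    (hp : {q : Ω | ∃ t ∈ T, q = t • p}.Finite) : {q : Ω | ∃ d ∈ D, q = d • p}.Finite := by
  obtain ⟨R, hR, hR1⟩ := Fct.reps hT
  refine ((hR.prod hp).image (fun x : G × Ω => x.1⁻¹ • x.2)).subset ?_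
  rintro q ⟨d, hd, rfl⟩
  obtain ⟨r, hr, n, hn, e⟩ := hR1 _ (D.inv_mem hd)
  refine ⟨(r, n⁻¹ • p), ⟨hr, n⁻¹, T.inv_mem hn, rfl⟩, ?_⟩
  show r⁻¹ • n⁻¹ • p = d • p
  rw [← mul_smul, ← mul_inv_rev, ← e, inv_inv]

theorem comb' {A : Type*} [Group A] (hcomm : ∀ s t : A, s * t = t * s) {Ω : Type*} [MulAction A Ω]
    {C : Type*} [Finite C]
    (hodd : ∀ t : A, ∃ n : ℕ, t ^ (2 * n + 1) = 1) (ρ : C → Ω)
    (hρ : ∀ c, (MulAction.orbit A (ρ c)).Infinite) (χ : A → C) (N : ℕ) :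
    ∃ (c : C) (τ : A) (t : Fin N → A), (∀ i, χ (t i) = c ∧ χ (τ * (t i)⁻¹) = c ∧
      (τ * (t i)⁻¹) • ρ c ≠ t i • ρ c) ∧ Function.Injective (fun i => t i • ρ c) := by
  let _ : CommGroup A := { (inferInstance : Group A) with mul_comm := hcomm }
  exact comb hodd ρ hρ χ N

/-- The common perpendicular is unique. -/
theorem perp_uniq (h : Fr K a b c) {x y z : G} (hz : Ty K c z) (h1 : z * x = x * z)
    (h2 : z * y = y * z) {m : ℕ} (hm : Ty K c ((x * y) ^ m)) : z = (x * y) ^ m := by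
  refine h.rot.rot.ty_eq hz hm ?_
  have c1 : Commute z x := h1
  have c2 : Commute z y := h2
  exact (c1.mul_right c2).pow_right m

/-- THEOREM X: every point fixed by `a` has a finite orbit under `C_K(c)`. -/
theorem thmX (h : Fr K a b c) (O : Obj K a b c ω) {Ta Tc : Subgroup G}
    (hTa : Ta.relIndex (Cz K a) ≠ 0) (hTaT : ∀ t ∈ Ta, TT K a b c a t)
    (hTc : Tc.relIndex (Cz K c) ≠ 0) (hTcT : ∀ t ∈ Tc, TT K a b c c t) :
    ∀ p, Ko K ω p → a • p = p → {q : Ω | ∃ d ∈ Cz K c, q = d • p}.Finite := by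
  classical
  by_contra hcon
  push Not at hcon
  obtain ⟨p0, hp0, hap0, hbad⟩ := hcon
  -- the involution z' of type c which commutes with a and fixes p0
  obtain ⟨k, hk, e0⟩ := fix_base h O.fa hp0 hap0
  have hkK := (mem_Cz.1 hk).1
  obtain ⟨z, hz⟩ : ∃ z, z = k⁻¹ * c * k := ⟨_, rfl⟩
  have hzT : Ty K c z := by rw [hz]; exact h.rot.rot.ty_conj h.rot.rot.ty_a hkK
  have hza : z * a = a * z := by
    rw [hz]
    have e1 := (mem_Cz.1 hk).2
    calc k⁻¹ * c * k * a = k⁻¹ * c * (k * a) := by group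
      _ = k⁻¹ * c * (a * k) := by rw [e1]
      _ = k⁻¹ * (c * a) * k := by group
      _ = k⁻¹ * (a * c) * k := by rw [h.cac]
      _ = k⁻¹ * a * (k * k⁻¹) * c * k := by group
      _ = k⁻¹ * (a * k) * k⁻¹ * c * k := by group
      _ = k⁻¹ * (k * a) * k⁻¹ * c * k := by rw [e1]
      _ = a * (k⁻¹ * c * k) := by group
  have hzp0 : z • p0 = p0 := by
    rw [hz, e0]
    calc (k⁻¹ * c * k) • k⁻¹ • ω = k⁻¹ • c • ω := by
          rw [← mul_smul, ← mul_smul]; congr 1; group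
      _ = k⁻¹ • ω := by rw [O.fc]
  -- the points fixed by a
  obtain ⟨FA, hFA⟩ : ∃ FA : Set Ω, FA = {p : Ω | Ko K ω p ∧ a • p = p} := ⟨_, rfl⟩
  have hFAf : FA.Finite := by
    refine O.ia.subset ?_
    intro p hp
    rw [hFA] at hp
    obtain ⟨k, hk, e⟩ := fix_base h O.fa hp.1 hp.2
    exact ⟨k⁻¹, (Cz K a).inv_mem hk, e⟩
  obtain ⟨GS, hGS⟩ : ∃ GS : Set Ω, GS = {p ∈ FA | {q : Ω | ∃ d ∈ Cz K c, q = d • p}.Finite} :=
    ⟨_, rfl⟩
  have hGSf : GS.Finite := by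
    refine hFAf.subset ?_
    intro p hp
    rw [hGS] at hp
    exact hp.1
  have hGSm : ∀ p, p ∈ GS → {q : Ω | ∃ d ∈ Cz K c, q = d • p}.Finite := by
    intro p hp
    rw [hGS] at hp
    exact hp.2
  have hGSF : Finite GS := hGSf.to_subtype
  obtain ⟨T, hT⟩ : ∃ T : Subgroup G, T = Tc ⊓ ⨅ p : GS, MulAction.stabilizer G (p : Ω) := ⟨_, rfl⟩
  have hTr : T.relIndex (Cz K c) ≠ 0 := by
    rw [hT]
    refine Subgroup.relIndex_inf_ne_zero hTc (Subgroup.relIndex_iInf_ne_zero ?_)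
    intro p
    exact stab_rel (hGSm _ p.2)
  have hTG : ∀ t ∈ T, ∀ p ∈ GS, t • p = p := by
    intro t ht p hp
    rw [hT] at ht
    have h1 := (Subgroup.mem_iInf.1 ht.2) ⟨p, hp⟩
    exact MulAction.mem_stabilizer_iff.1 h1
  have hTT : ∀ t ∈ T, TT K a b c c t := by
    intro t ht
    rw [hT] at ht
    exact hTcT t ht.1
  have hTK : ∀ t ∈ T, t ∈ K := fun t ht => (hTT t ht).1
  have hac : a ≠ c := by
    intro e
    have := h.nb
    rw [← h.ca, e, h.cc] at this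
    exact this K.one_mem
  have hTa' : ∀ t ∈ T, a * t * a = t⁻¹ := fun t ht =>
    (hTT t ht).2.2 a (Or.inl h.ty_a) h.cac hac
  have hTcm : ∀ s ∈ T, ∀ t ∈ T, s * t = t * s := by
    intro s hs t ht
    have e1 := hTa' _ (T.mul_mem hs ht)
    have e2 : a * (s * t) * a = s⁻¹ * t⁻¹ := by
      calc a * (s * t) * a = a * s * 1 * t * a := by group
        _ = a * s * (a * a) * t * a := by rw [h.aa]
        _ = (a * s * a) * (a * t * a) := by group
        _ = _ := by rw [hTa' s hs, hTa' t ht]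
    rw [e2, mul_inv_rev] at e1
    calc s * t = (t⁻¹ * s⁻¹)⁻¹ := by group
      _ = (s⁻¹ * t⁻¹)⁻¹ := by rw [e1]
      _ = t * s := by group
  have hta : ∀ t ∈ T, a * t = t⁻¹ * a := by
    intro t ht
    calc a * t = (a * t * a) * a := by rw [mul_assoc (a * t), h.aa, mul_one]
      _ = t⁻¹ * a := by rw [hTa' t ht]
  -- the involutions y_t and the points q_t
  have hy : ∀ t : T, ∃ y : G, Ty K b y ∧ y * z = z * y ∧ ∃ q : Ω, Ko K ω q ∧
      ((t : G) * a * (t : G)⁻¹) • q = q ∧ y • q = q := by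
    intro t
    have hx : Ty K a ((t : G) * a * (t : G)⁻¹) := by
      have := h.ty_conj h.ty_a (K.inv_mem (hTK _ t.2))
      rwa [inv_inv] at this
    obtain ⟨m, hm, e1, e2⟩ := h.swap'.perp hx hzT
    obtain ⟨q, hq, e3, e4⟩ := flag_pt h O hx hm e1.symm
    exact ⟨_, hm, e2, q, hq, e3, e4⟩
  choose y hyT hyz q hq hxq hyq using hy
  obtain ⟨r, hr⟩ : ∃ r : T → Ω, r = fun t : T => (t : G)⁻¹ • q t := ⟨_, rfl⟩
  have hrq : ∀ t : T, q t = (t : G) • r t := by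
    intro t; rw [hr]; exact (smul_inv_smul _ _).symm
  have hrF : ∀ t : T, r t ∈ FA := by
    intro t
    rw [hFA, hr]
    refine ⟨(hq t).smul (K.inv_mem (hTK _ t.2)), ?_⟩
    show a • (t : G)⁻¹ • q t = (t : G)⁻¹ • q t
    calc a • (t : G)⁻¹ • q t = (t : G)⁻¹ • ((t : G) * a * (t : G)⁻¹) • q t := by
          rw [← mul_smul, ← mul_smul]; congr 1; group
      _ = (t : G)⁻¹ • q t := by rw [hxq]
  have hrA : ∀ p ∈ FA, a • p = p := by
    intro p hp; rw [hFA] at hp; exact hp.2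
  -- case 1: some `r t` is good
  have case1 : ∀ t : T, r t ∉ GS := by
    intro t ht
    have e1 : q t = r t := by rw [hrq]; exact hTG _ t.2 _ ht
    have hf1 : a • r t = r t := hrA _ (hrF t)
    have hf2 : y t • r t = r t := by rw [← e1]; exact hyq t
    obtain ⟨m, hm, e2, e3⟩ := h.perp h.ty_a (hyT t)
    have e4 : z = (a * y t) ^ m := perp_uniq h hzT hza (hyz t).symm hm
    have hf3 : z • r t = r t := by rw [e4]; exact fix_pow (fix_mul hf1 hf2) m
    have hK1 : Ko K ω (r t) := by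
      have := hrF t
      rw [hFA] at this
      exact this.1
    have e5 : p0 = r t :=
      uniq h.swap' O.swap.rot h.ty_a hzT hza.symm hp0 hK1 hap0 hzp0 hf1 hf3
    rw [hGS] at ht
    exact hbad (by rw [e5]; exact ht.2)
  -- the colouring
  obtain ⟨C1, hC1, hcol1⟩ := col h O hTc hTcT
  obtain ⟨κ, hκ⟩ := hcol1 z hzT
  obtain ⟨C2, hC2, hcol2⟩ := col h.rot O.rot hTa (fun t ht => TT_rot (hTaT t ht))
  obtain ⟨BS, hBS⟩ : ∃ BS : Set Ω, BS = {p ∈ FA | p ∉ GS} := ⟨_, rfl⟩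
  have hBSf : Finite BS := by
    refine (hFAf.subset ?_).to_subtype
    intro p hp
    rw [hBS] at hp
    exact hp.1
  have hrB : ∀ t : T, r t ∈ BS := by
    intro t
    rw [hBS]
    exact ⟨hrF t, case1 t⟩
  have hBinf : ∀ p ∈ BS, (MulAction.orbit T p).Infinite := by
    intro p hp hfin
    rw [hBS] at hp
    apply hp.2
    rw [hGS]
    refine ⟨hp.1, orb_fin hTr (hfin.subset ?_)⟩
    rintro q ⟨t, ht, rfl⟩
    exact ⟨⟨t, ht⟩, rfl⟩
  -- the type c involution which fixes `q t` and `q t'`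
  have fix2 : ∀ t t' : T, r t = r t' → κ (y t) (q t) = κ (y t') (q t') →
      ∃ w, Ty K c w ∧ w * ((t : G) * t' * a) = (t : G) * t' * a * w ∧ w • q t = q t ∧
        w • q t' = q t' := by
    intro t t' e1 e2
    obtain ⟨e, he, e3, e4⟩ := hκ (y t) (q t) (y t') (q t') (hyT t) (hyz t) (hyq t) (hq t)
      (hyT t') (hyz t') (hyq t') (hq t') e2
    have hyz' : y t ≠ z := by
      intro e5
      exact h.rot.ne_ty (hyT t) (e5 ▸ hzT)
    have hinv : y t * e * y t = e⁻¹ := he.2.2 _ (Or.inr (Or.inl (hyT t))) (hyz t) hyz'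
    have hv : Ty K b (y t * e) := h.rot.ty_inv (hyT t) he.1 hinv
    have hye : y t * e = e⁻¹ * y t := by
      calc y t * e = (y t * e * y t) * y t := by
            rw [mul_assoc (y t * e), (hyT t).1, mul_one]
        _ = _ := by rw [hinv]
    have v1 : (y t * e) • q t = q t' := by
      rw [hye, mul_smul, hyq, ← e4]
    have v2 : (y t * e) • q t' = q t := by
      rw [e4, mul_smul, smul_inv_smul, hyq]
    obtain ⟨τ, hτ⟩ : ∃ τ : G, τ = (t : G) * t' := ⟨_, rfl⟩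
    have hτT : τ ∈ T := by rw [hτ]; exact T.mul_mem t.2 t'.2
    have hs : Ty K a (τ * a) := by
      have := h.ty_inv h.ty_a (T.inv_mem hτT |> hTK _) (hTa' _ (T.inv_mem hτT))
      have e6 := hta _ (T.inv_mem hτT)
      rw [inv_inv] at e6
      rwa [e6] at this
    have s1 : (τ * a) • q t = q t' := by
      have e6 : τ * a * (t : G) = (t' : G) * a := by
        calc τ * a * (t : G) = τ * (a * t) := by group
          _ = (t : G) * t' * ((t : G)⁻¹ * a) := by rw [hta _ t.2, hτ]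
          _ = ((t : G) * t') * (t : G)⁻¹ * a := by group
          _ = ((t' : G) * t) * (t : G)⁻¹ * a := by rw [hTcm _ t.2 _ t'.2]
          _ = _ := by group
      rw [hrq t, ← mul_smul, e6, mul_smul, hrA _ (hrF t), e1, ← hrq]
    have s2 : (τ * a) • q t' = q t := by
      have e6 : τ * a * (t' : G) = (t : G) * a := by
        calc τ * a * (t' : G) = τ * (a * t') := by group
          _ = (t : G) * t' * ((t' : G)⁻¹ * a) := by rw [hta _ t'.2, hτ]
          _ = _ := by group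
      rw [hrq t', ← mul_smul, e6, mul_smul, hrA _ (hrF t'), ← e1, ← hrq]
    obtain ⟨w, hw, w1, -, w3, w4⟩ := fix_of_swaps h hs hv s1 s2 v1 v2
    rw [← hτ]
    exact ⟨w, hw, w1, w3, w4⟩
  have : Fintype C2 := Fintype.ofFinite C2
  obtain ⟨⟨p, κ0⟩, τ, t, ht, hinj⟩ := comb' (A := T) (Ω := Ω) (C := BS × C1)
    (fun s t => Subtype.ext (hTcm _ s.2 _ t.2))
    (fun t => by
      obtain ⟨n, hn⟩ := h.odd _ (hTK _ t.2)
      exact ⟨n, Subtype.ext (by push_cast; exact hn)⟩)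
    (fun x => (x.1 : Ω)) (fun x => hBinf _ x.1.2)
    (fun t => (⟨r t, hrB t⟩, κ (y t) (q t))) (Fintype.card C2 + 1)
  have ht1 : ∀ i, r (t i) = p := fun i => congrArg (fun x : BS × C1 => (x.1 : Ω)) (ht i).1
  have ht2 : ∀ i, κ (y (t i)) (q (t i)) = κ0 := fun i =>
    congrArg (fun x : BS × C1 => x.2) (ht i).1
  have ht3 : ∀ i, r (τ * (t i)⁻¹) = p := fun i =>
    congrArg (fun x : BS × C1 => (x.1 : Ω)) (ht i).2.1
  have ht4 : ∀ i, κ (y (τ * (t i)⁻¹)) (q (τ * (t i)⁻¹)) = κ0 := fun i =>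
    congrArg (fun x : BS × C1 => x.2) (ht i).2.1
  obtain ⟨s, hs⟩ : ∃ s : G, s = (τ : G) * a := ⟨_, rfl⟩
  have hsT : Ty K a s := by
    have := h.ty_inv h.ty_a (T.inv_mem τ.2 |> hTK _) (hTa' _ (T.inv_mem τ.2))
    have e6 := hta _ (T.inv_mem τ.2)
    rw [inv_inv] at e6
    rwa [e6, ← hs] at this
  have hw : ∀ i, ∃ w, Ty K c w ∧ w * s = s * w ∧ w • q (t i) = q (t i) := by
    intro i
    obtain ⟨w, hw, w1, w2, -⟩ := fix2 (t i) (τ * (t i)⁻¹) (by rw [ht1, ht3]) (by rw [ht2, ht4])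
    refine ⟨w, hw, ?_, w2⟩
    have e7 : ((t i : G)) * ((τ * (t i)⁻¹ : T) : G) = τ := by
      rw [hTcm _ (t i).2 _ (τ * (t i)⁻¹).2]
      push_cast
      group
    rw [e7, ← hs] at w1
    exact w1
  choose w hwT hws hwq using hw
  obtain ⟨κ2, hκ2⟩ := hcol2 s hsT
  obtain ⟨i, j, hij, e8⟩ := Fintype.exists_ne_map_eq_of_card_lt
    (fun i => κ2 (w i) (q (t i))) (by rw [Fintype.card_fin]; exact Nat.lt_succ_self _)
  obtain ⟨d, hd, e9, e10⟩ := hκ2 (w i) (q (t i)) (w j) (q (t j)) (hwT i) (hws i) (hwq i)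
    (hq _) (hwT j) (hws j) (hwq j) (hq _) e8
  have hws' : w i ≠ s := by
    intro e5
    exact h.rot.rot.ne_ty (hwT i) (e5 ▸ hsT)
  have hinv : w i * d * w i = d⁻¹ := hd.2.2 _ (Or.inr (Or.inl (hwT i))) (hws i) hws'
  have hu : Ty K c (w i * d) := h.rot.rot.ty_inv (hwT i) hd.1 hinv
  have hwd : w i * d = d⁻¹ * w i := by
    calc w i * d = (w i * d * w i) * w i := by
          rw [mul_assoc (w i * d), (hwT i).1, mul_one]
      _ = _ := by rw [hinv]
  have u1 : (w i * d) • q (t i) = q (t j) := by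
    rw [hwd, mul_smul, hwq, ← e10]
  have u2 : (w i * d) • q (t j) = q (t i) := by
    rw [e10, mul_smul, smul_inv_smul, hwq]
  obtain ⟨w', hw', -, w2, w3⟩ := fix2 (t i) (t j) (by rw [ht1, ht1]) (by rw [ht2, ht2])
  have e11 : q (t i) = q (t j) := no_swap h.rot.rot hw' hu w2 w3 u1 u2
  apply hij
  apply hinj
  show (t i : G) • (p : Ω) = (t j : G) • (p : Ω)
  rw [← ht1 i, ← hrq, e11, hrq, ht1, ht1]

end Pool.Agent.FourGp.FF.Fi
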